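import Pool.Agent.H98.KS.Targets1

/-! # MP_ff41bc_an, KS board, module RB (helper69), after the proof of RA by helper17 -/

open Finset

noncomputable section

namespace Pool.Agent.H69.KS

open Pool.Agent.H98.KS

theorem cnt_shift (k : ℕ) {d : ℕ} (F : Finset (Fin d → ℤ)) (x v : Fin d → ℤ) (l : ℕ) :
    cnt k (F.image (fun y => y - v)) (x - v) l = cnt k F x l := by
  classical
  have hinj : Function.Injective (fun y : Fin d → ℤ => y - v) := fun a b h => by
    simpa using h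
  rw [cnt, cnt]
  rw [← card_image_of_injective (F.filter (fun y => pw k (x - y) = l)) hinj]
  congr 1
  ext w
  simp only [mem_filter, mem_image]
  constructor
  · rintro ⟨⟨y, hy, rfl⟩, h⟩
    refine ⟨y, ⟨hy, ?_⟩, rfl⟩
    rwa [sub_sub_sub_cancel_right] at h
  · rintro ⟨y, ⟨hy, h⟩, rfl⟩
    refine ⟨⟨y, hy, rfl⟩, ?_⟩
    rwa [sub_sub_sub_cancel_right]

theorem coord_lt {k d L l : ℕ} (hk : 1 ≤ k) (y : Fin d → ℤ) (h : pw k y = l)
    (hl : l < (2 * L) ^ k) (i : Fin d) : |y i| < 2 * (L : ℤ) := by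
  have h1 : (y i).natAbs ^ k ≤ pw k y :=
    single_le_sum (f := fun i => (y i).natAbs ^ k) (fun _ _ => Nat.zero_le _) (mem_univ i)
  have h2 : (y i).natAbs ^ k < (2 * L) ^ k := by omega
  have h3 : (y i).natAbs < 2 * L := lt_of_pow_lt_pow_left₀ k (Nat.zero_le _) h2
  rw [abs_lt]
  constructor <;> omega

theorem ks_RB (hLOC : T_LOC) (hLB : T_LB) (hNB : T_NB) (hWK : T_WK) (hW2 : T_W2) : T_RB := by
  intro k M hk hM
  classical
  obtain ⟨A1, hA1⟩ := hWK k (by omega)
  obtain ⟨A2, hA2⟩ := hWK (k - 1) (by omega)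
  obtain ⟨A, hA⟩ := hW2 k A1 A2 (by omega) hA1 hA2
  obtain ⟨n, t, D, hn, ht, hD⟩ := hNB k A M hk hA.1 hM
  refine ⟨D, fun d hd => ⟨(hD d hd).1, fun c0 hc0 => ?_⟩⟩
  obtain ⟨hkd, hD'⟩ := hD d hd
  obtain ⟨N0, hN0, hN0'⟩ := hD' c0 (7 ^ d) hc0 (by positivity)
  refine ⟨N0, hN0, fun N L F X hN hL hLM h => ?_⟩
  have hN1 : (1 : ℝ) ≤ N := hN0.trans hN
  have hNpos : (0 : ℝ) < N := by linarith
  have hLr : (1 : ℝ) ≤ L := (Real.one_le_rpow hN1 (by positivity)).trans hL
  have hLn : 1 ≤ L := by exact_mod_cast hLr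
  obtain ⟨H, hCond, hfin⟩ := hN0' N L hN hL hLM
  refine hLOC d L F X (N ^ ((d : ℝ) - 1 / 2)) hLn (Real.rpow_nonneg hNpos.le _) (fun z => ?_)
  set Xz := X.filter (fun x => ∀ i, (L : ℤ) * z i ≤ x i ∧ x i < L * z i + L) with hXz
  set Fz := F.filter (fun y => ∀ i, (L : ℤ) * z i - 2 * L ≤ y i ∧ y i ≤ L * z i + 3 * L) with hFz
  rcases Xz.eq_empty_or_nonempty with he | ⟨x₀, hx₀⟩
  · rw [he]
    simp only [card_empty, Nat.cast_zero]
    have := Real.rpow_nonneg hNpos.le ((d : ℝ) - 1 / 2)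
    positivity
  set v : Fin d → ℤ := fun i => (L : ℤ) * z i with hv
  have hcnt : ∀ x ∈ Xz, ∃ l, c0 * ((L : ℝ) / N) ^ (d - k) ≤ cnt k Fz x l := by
    intro x hx
    have hx' := mem_filter.1 hx
    obtain ⟨l, hl1, hl2, hl3⟩ := (h x hx'.1).2
    refine ⟨l, hl3.trans ?_⟩
    rw [cnt, cnt]
    have hsub : F.filter (fun y => pw k (x - y) = l) ⊆ Fz.filter (fun y => pw k (x - y) = l) := by
      intro y hy
      have hy' := mem_filter.1 hy
      rw [mem_filter, hFz, mem_filter]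
      refine ⟨⟨hy'.1, fun i => ?_⟩, hy'.2⟩
      have h1 := coord_lt (by omega : 1 ≤ k) (x - y) hy'.2 hl2 i
      rw [Pi.sub_apply, abs_lt] at h1
      have h2 := hx'.2 i
      constructor <;> linarith [h1.1, h1.2, h2.1, h2.2]
    exact_mod_cast card_le_card hsub
  have hFcard : (Fz.card : ℝ) ≤ 7 ^ d * ((L : ℝ) / N) ^ d := by
    have hx' := mem_filter.1 hx₀
    have hs := (h x₀ hx'.1).1 (3 * L)
    have hsub : Fz ⊆ F.filter (fun y => ∀ i, |y i - x₀ i| ≤ ((3 * L : ℕ) : ℤ)) := by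
      intro y hy
      have hy' := mem_filter.1 hy
      rw [mem_filter]
      refine ⟨hy'.1, fun i => ?_⟩
      have h2 := hx'.2 i
      have h3 := hy'.2 i
      rw [abs_le]
      push_cast
      constructor <;> linarith [h2.1, h2.2, h3.1, h3.2]
    have h1 : (Fz.card : ℝ) ≤
        ((F.filter (fun y => ∀ i, |y i - x₀ i| ≤ ((3 * L : ℕ) : ℤ))).card : ℝ) := by
      exact_mod_cast card_le_card hsub
    refine h1.trans (hs.trans ?_)
    rw [div_pow, ← mul_div_assoc, ← mul_pow, one_div, inv_mul_eq_div]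
    push_cast
    gcongr
    linarith
  have hinj : Function.Injective (fun y : Fin d → ℤ => y - v) := fun a b h => by
    simpa using h
  have hLB' := hLB k n A t d L N H (c0 * ((L : ℝ) / N) ^ (d - k)) hk hn hA ht hLn hCond
    (Fz.image (fun y => y - v)) (Xz.image (fun y => y - v)) (by
      intro w hw
      obtain ⟨y, hy, rfl⟩ := mem_image.1 hw
      have hy' := (mem_filter.1 hy).2
      rw [bx, Fintype.mem_piFinset]
      intro i
      have := hy' i
      simp only [mem_Icc, Pi.sub_apply, hv]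
      constructor <;> linarith [this.1, this.2]) (by
      intro w hw
      obtain ⟨x, hx, rfl⟩ := mem_image.1 hw
      have hx' := (mem_filter.1 hx).2
      rw [cell, Fintype.mem_piFinset]
      intro i
      have := hx' i
      simp only [mem_Ico, Pi.sub_apply, hv]
      constructor <;> linarith [this.1, this.2]) (by
      intro w hw
      obtain ⟨x, hx, rfl⟩ := mem_image.1 hw
      obtain ⟨l, hl⟩ := hcnt x hx
      refine ⟨l, ?_⟩
      have e := cnt_shift k Fz x v l
      have e' : cnt k (Fz.image (fun y => y - v)) ((fun y => y - v) x) l = cnt k Fz x l := e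
      rw [e']
      exact hl)
  rw [card_image_of_injective _ hinj, card_image_of_injective _ hinj] at hLB'
  exact hfin Xz.card Fz.card (Nat.cast_nonneg _) (Nat.cast_nonneg _) hFcard hLB'

end Pool.Agent.H69.KS
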