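import Pool.Agent.H98.KS.Targets1

/-! # MP_ff41bc_an, KS board, module WK (helper69) -/

noncomputable section

namespace Pool.Agent.H69.KS

open Pool.Agent.H98.KS

theorem ks_WK (hW1 : T_W1) (hWS : T_WS) : T_WK := by
  intro k hk
  induction k, hk using Nat.le_induction with
  | base => exact hW1
  | succ k hk ih =>
    obtain ⟨A, hA⟩ := ih
    exact hWS k A hk hA

end Pool.Agent.H69.KS
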